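import Pool.Agent.helper45.TC.Spec

set_option autoImplicit false

/-!
# Row TC0: the case `b = a + s`
-/

open Polynomial Finset Pool.Agent.helper27.PC

namespace Pool.Agent.TC

theorem TC0_alg (a s : ℕ) :
    (((X : ℤ[X]) ^ (a + 2 * (a + s)) - X ^ (a + s)) * (X ^ (3 * s) - 1)) ^ 2 =
      X ^ (4 * a + 8 * s + 2 * (a + s)) + X ^ (2 * (a + s)) - 2 * X ^ (2 * (a + s) + 5 * s + 4 * a) -
        2 * X ^ (2 * (a + s) + 7 * s + 2 * a) - 2 * X ^ (2 * (a + s) + s + 2 * a) - 2 * X ^ (2 * (a + s) + 3 * s) +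
        (X ^ (2 * (a + s) + 4 * a + 2 * s) + 4 * X ^ (2 * (a + s) + 2 * a + 4 * s) + X ^ (2 * (a + s) + 6 * s)) := by
  ring

theorem TC0_pos (e₁ e₂ e₃ k : ℕ) :
    0 ≤ ((X : ℤ[X]) ^ e₁ + 4 * X ^ e₂ + X ^ e₃).coeff k := by
  have h4 : (4 : ℤ[X]) = C 4 := rfl
  rw [coeff_add, coeff_add, h4, coeff_C_mul, coeff_X_pow, coeff_X_pow, coeff_X_pow]
  split_ifs <;> norm_num

theorem TC0 (hGEN : GEN_stmt) (hCL0 : CL0_stmt) (hLOV : LOV_stmt) (hLO0 : LO0_stmt) (hMS0 : MS0_stmt)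
    (hCO0 : CO0_stmt) : TC0_stmt := by
  intro s a b hs hsa hb hev k
  have hb1 : 1 ≤ b := by omega
  obtain ⟨u, hu⟩ : ∃ u, s = 2 * u := by
    have h1 : b - a = s := by omega
    rw [h1] at hev
    obtain ⟨u, hu⟩ := hev
    exact ⟨u, by omega⟩
  have hu1 : 1 ≤ u := by omega
  have h1 := hGEN s a b hs (by omega) hb1 {vac (s + a + b)} (by
    intro R l hl hne
    rw [mem_singleton]
    exact (hCL0 s a b hs hsa hb R l hl hne).1)
  rw [sum_singleton] at h1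
  have h2 : ∑ l ∈ addable b (vac (s + a + b)), zz s a b (vac (s + a + b)) l =
      (X ^ (a + 2 * b) - X ^ b) * (X ^ (3 * s) - 1) := by
    rw [← hLO0 s a b hs hsa hb, hLOV wl b (yv s a b) (vac (s + a + b)) hb1]
    rfl
  rw [h2, hMS0 s a b hs hsa hb] at h1
  have h3 := hCO0 s a b u hu1 hu hsa hb k
  have h4 := TC0_alg a s
  rw [← hb] at h4
  rw [h4] at h1
  have h5 := TC0_pos (2 * b + 4 * a + 2 * s) (2 * b + 2 * a + 4 * s) (2 * b + 6 * s) k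
  rw [h1]
  simp only [coeff_add, coeff_sub] at h3 h5 ⊢
  linarith

end Pool.Agent.TC
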